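import Mathlib

/-!
# Prepending a random piece to a process whose law is absolutely continuous w.r.t. Wiener measure

Let `W` be Wiener measure on the path space `C([0,∞), ℝ)` and let `X` be a continuous process whose
law is absolutely continuous with respect to `W` (for instance equivalent to `W`). We show that, on
an enlargement of the probability space of `X`, there are a finite random time `T` and a continuous
process `Y` with `Y 0 = 0` such that the path `Y` run up to time `T` and followed by `Y T + X` is a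
standard Brownian motion.

The proof runs the filling scheme for the maps `ω ↦ (ω (n + t) - ω n)_t`, which preserve `W` and
visit every non-null set almost surely (zero-one law), and then disintegrates.
-/

open MeasureTheory ProbabilityTheory Filter
open scoped NNReal ENNReal Topology

namespace Pool.Agent.Results.MP_a9102c_pr.Prepend

namespace FillingScheme

variable {E : Type*} [MeasurableSpace E]

/-- One round of the filling scheme: the state is `(u, f)`: the density `u` of the unstopped mass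
on the path space, and the density `f` of the part of the target that is not yet filled. -/
noncomputable def step (W : Measure E) (τ : E → E) (s : (E → ℝ≥0∞) × (E → ℝ≥0∞)) :
    (E → ℝ≥0∞) × (E → ℝ≥0∞) :=
  let g := ((W.withDensity s.1).map τ).rnDeriv W
  (fun ω => s.1 ω - s.1 ω * min 1 (s.2 (τ ω) / g (τ ω)), fun x => s.2 x - g x)

noncomputable def state (W : Measure E) (τ : ℕ → E → E) (f : E → ℝ≥0∞) :
    ℕ → (E → ℝ≥0∞) × (E → ℝ≥0∞)
  | 0 => (fun _ => 1, f)
  | n + 1 => step W (τ n) (state W τ f n)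

variable (W : Measure E) (τ : ℕ → E → E) (f : E → ℝ≥0∞)

/-- unstopped mass before round `n` -/
noncomputable def u (n : ℕ) : E → ℝ≥0∞ := (state W τ f n).1
/-- unfilled target before round `n` -/
noncomputable def r (n : ℕ) : E → ℝ≥0∞ := (state W τ f n).2
/-- density of the law of the unstopped mass at time `n` -/
noncomputable def g (n : ℕ) : E → ℝ≥0∞ := ((W.withDensity (u W τ f n)).map (τ n)).rnDeriv W
/-- mass stopped in round `n` -/
noncomputable def q (n : ℕ) : E → ℝ≥0∞ :=
  fun ω => u W τ f n ω * min 1 (r W τ f n (τ n ω) / g W τ f n (τ n ω))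

lemma u_zero : u W τ f 0 = fun _ => 1 := rfl
lemma r_zero : r W τ f 0 = f := rfl
lemma u_succ (n : ℕ) (ω : E) : u W τ f (n + 1) ω = u W τ f n ω - q W τ f n ω := rfl
lemma r_succ (n : ℕ) (x : E) : r W τ f (n + 1) x = r W τ f n x - g W τ f n x := rfl

lemma measurable_g (n : ℕ) : Measurable (g W τ f n) := Measure.measurable_rnDeriv _ _

variable {W τ f}

lemma measurable_u_r (hτ : ∀ n, Measurable (τ n)) (hf : Measurable f) (n : ℕ) :
    Measurable (u W τ f n) ∧ Measurable (r W τ f n) := by
  induction n with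
  | zero => exact ⟨by rw [u_zero]; exact measurable_const, by rw [r_zero]; exact hf⟩
  | succ n ih =>
    constructor
    · have : u W τ f (n + 1) = fun ω => u W τ f n ω -
        u W τ f n ω * min 1 (r W τ f n (τ n ω) / g W τ f n (τ n ω)) := rfl
      rw [this]
      exact ih.1.sub (ih.1.mul (measurable_const.min
        ((ih.2.comp (hτ n)).div ((measurable_g W τ f n).comp (hτ n)))))
    · have : r W τ f (n + 1) = fun x => r W τ f n x - g W τ f n x := rfl
      rw [this]
      exact ih.2.sub (measurable_g W τ f n)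

lemma measurable_u (hτ : ∀ n, Measurable (τ n)) (hf : Measurable f) (n : ℕ) :
    Measurable (u W τ f n) := (measurable_u_r hτ hf n).1
lemma measurable_r (hτ : ∀ n, Measurable (τ n)) (hf : Measurable f) (n : ℕ) :
    Measurable (r W τ f n) := (measurable_u_r hτ hf n).2
lemma measurable_q (hτ : ∀ n, Measurable (τ n)) (hf : Measurable f) (n : ℕ) :
    Measurable (q W τ f n) :=
  (measurable_u hτ hf n).mul (measurable_const.min
        (((measurable_r hτ hf n).comp (hτ n)).div ((measurable_g W τ f n).comp (hτ n))))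

lemma q_le_u (n : ℕ) (ω : E) : q W τ f n ω ≤ u W τ f n ω := by
  unfold q
  calc _ ≤ u W τ f n ω * 1 := by gcongr; exact min_le_left _ _
    _ = _ := mul_one _

lemma u_le_one (n : ℕ) (ω : E) : u W τ f n ω ≤ 1 := by
  induction n with
  | zero => simp [u_zero]
  | succ n ih => rw [u_succ]; exact tsub_le_self.trans ih

lemma sum_q_add_u (n : ℕ) (ω : E) :
    (∑ k ∈ Finset.range n, q W τ f k ω) + u W τ f n ω = 1 := by
  induction n with
  | zero => simp [u_zero]
  | succ n ih =>
    rw [Finset.sum_range_succ, u_succ, add_assoc, add_tsub_cancel_of_le (q_le_u n ω), ih]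

lemma sum_min_add_r (n : ℕ) (x : E) :
    (∑ k ∈ Finset.range n, min (r W τ f k x) (g W τ f k x)) + r W τ f n x = f x := by
  induction n with
  | zero => simp [r_zero]
  | succ n ih =>
    rw [Finset.sum_range_succ, r_succ, add_assoc, add_comm (min _ _), tsub_add_min, ih]

/-- After round `n`, a path whose image is in the unfilled region has been stopped. -/
lemma u_succ_eq_zero (n : ℕ) (ω : E) (h : r W τ f (n + 1) (τ n ω) ≠ 0) :
    u W τ f (n + 1) ω = 0 := by
  rw [r_succ] at h
  have h1 : g W τ f n (τ n ω) < r W τ f n (τ n ω) := by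
    by_contra hc
    exact h (tsub_eq_zero_of_le (not_lt.1 hc))
  rw [u_succ]
  have h2 : min 1 (r W τ f n (τ n ω) / g W τ f n (τ n ω)) = 1 := by
    apply min_eq_left
    rw [ENNReal.le_div_iff_mul_le (Or.inr (ne_bot_of_gt h1)) (Or.inl h1.ne_top)]
    rw [one_mul]; exact h1.le
  unfold q
  rw [h2, mul_one, tsub_self]


lemma map_withDensity_u_le (hτ : ∀ n, MeasurePreserving (τ n) W W) (n : ℕ) :
    (W.withDensity (u W τ f n)).map (τ n) ≤ W := by
  calc (W.withDensity (u W τ f n)).map (τ n) ≤ (W.withDensity 1).map (τ n) := by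
        apply Measure.map_mono _ (hτ n).measurable
        exact withDensity_mono (ae_of_all _ fun ω => u_le_one n ω)
    _ = W := by rw [withDensity_one, (hτ n).map_eq]

lemma g_lt_top [IsFiniteMeasure W] (hτ : ∀ n, MeasurePreserving (τ n) W W) (n : ℕ) :
    ∀ᵐ x ∂W, g W τ f n x < ∞ := by
  have : IsFiniteMeasure ((W.withDensity (u W τ f n)).map (τ n)) :=
    ⟨(map_withDensity_u_le hτ n _).trans_lt (measure_lt_top W _)⟩
  exact Measure.rnDeriv_lt_top _ _

lemma map_withDensity_q [IsFiniteMeasure W] (hτ : ∀ n, MeasurePreserving (τ n) W W)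
    (hf : Measurable f) (n : ℕ) :
    (W.withDensity (q W τ f n)).map (τ n) =
      W.withDensity (fun x => min (r W τ f n x) (g W τ f n x)) := by
  have hτm : ∀ n, Measurable (τ n) := fun n => (hτ n).measurable
  set μ := (W.withDensity (u W τ f n)).map (τ n) with hμ
  have hle : μ ≤ W := map_withDensity_u_le hτ n
  have : IsFiniteMeasure μ := ⟨(hle _).trans_lt (measure_lt_top W _)⟩
  have hac : μ ≪ W := Measure.absolutelyContinuous_of_le hle
  let h : E → ℝ≥0∞ := fun x => min 1 (r W τ f n x / g W τ f n x)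
  have hh : Measurable h := measurable_const.min
        ((measurable_r hτm hf n).div (measurable_g W τ f n))
  have hu := measurable_u (W := W) hτm hf n
  have e1 : (W.withDensity (q W τ f n)).map (τ n) = μ.withDensity h := by
    ext B hB
    have e2 : ∫⁻ x in τ n ⁻¹' B, h (τ n x) ∂W.withDensity (u W τ f n) =
        ((W.withDensity (u W τ f n)).withDensity (h ∘ τ n)) (τ n ⁻¹' B) :=
      (withDensity_apply _ (hτm n hB)).symm
    rw [Measure.map_apply (hτm n) hB, withDensity_apply _ hB, hμ,
      setLIntegral_map hB hh (hτm n), e2, ← withDensity_mul _ hu (hh.comp (hτm n))]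
    rfl
  rw [e1, ← Measure.withDensity_rnDeriv_eq μ W hac,
    ← withDensity_mul _ (Measure.measurable_rnDeriv _ _) hh]
  apply withDensity_congr_ae
  filter_upwards [g_lt_top (f := f) hτ n] with x hx
  change g W τ f n x * min 1 (r W τ f n x / g W τ f n x) = _
  rcases eq_or_ne (g W τ f n x) 0 with h0 | h0
  · simp [h0]
  · rw [mul_min, mul_one, ENNReal.mul_div_cancel h0 hx.ne, min_comm]


lemma tsum_q_add (ω : E) : (∑' k, q W τ f k ω) + ⨅ n, u W τ f n ω = 1 := by
  have h1 : Tendsto (fun n => (∑ k ∈ Finset.range n, q W τ f k ω) + u W τ f n ω) atTop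
      (𝓝 ((∑' k, q W τ f k ω) + ⨅ n, u W τ f n ω)) := by
    refine (ENNReal.tendsto_nat_tsum _).add (tendsto_atTop_iInf ?_)
    refine antitone_nat_of_succ_le fun n => ?_
    rw [u_succ]; exact tsub_le_self
  simp_rw [sum_q_add_u] at h1
  exact tendsto_nhds_unique h1 tendsto_const_nhds

lemma antitone_r (x : E) : Antitone fun n => r W τ f n x :=
  antitone_nat_of_succ_le fun n => by rw [r_succ]; exact tsub_le_self

lemma tsum_min_add (x : E) :
    (∑' k, min (r W τ f k x) (g W τ f k x)) + ⨅ n, r W τ f n x = f x := by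
  have h1 : Tendsto (fun n => (∑ k ∈ Finset.range n, min (r W τ f k x) (g W τ f k x)) +
      r W τ f n x) atTop
      (𝓝 ((∑' k, min (r W τ f k x) (g W τ f k x)) + ⨅ n, r W τ f n x)) :=
    (ENNReal.tendsto_nat_tsum _).add (tendsto_atTop_iInf (antitone_r x))
  simp_rw [sum_min_add_r] at h1
  exact tendsto_nhds_unique h1 tendsto_const_nhds

/-- **Filling scheme.** If the measure preserving maps `τ n` visit every non-null set almost
surely, then every probability density `f` is the law of `τ N` for a suitable randomised index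
`N`. -/
theorem exists_filling [IsProbabilityMeasure W] (hτ : ∀ n, MeasurePreserving (τ n) W W)
    (hf : Measurable f) (hf1 : ∫⁻ x, f x ∂W = 1)
    (hvisit : ∀ A, MeasurableSet A → W A ≠ 0 → ∀ᵐ ω ∂W, ∃ n, τ n ω ∈ A) :
    ∃ q : ℕ → E → ℝ≥0∞, (∀ n, Measurable (q n)) ∧ (∀ᵐ ω ∂W, ∑' n, q n ω = 1) ∧
      (Measure.sum fun n => (W.withDensity (q n)).map (τ n)) = W.withDensity f := by
  have hτm : ∀ n, Measurable (τ n) := fun n => (hτ n).measurable
  have hqm := measurable_q (W := W) hτm hf
  have hum := measurable_u (W := W) hτm hf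
  have hrm := measurable_r (W := W) hτm hf
  have hmm : ∀ n, Measurable fun x => min (r W τ f n x) (g W τ f n x) := fun n =>
    (hrm n).min (measurable_g W τ f n)
  have hmass : ∀ n, ∫⁻ ω, q W τ f n ω ∂W = ∫⁻ x, min (r W τ f n x) (g W τ f n x) ∂W := by
    intro n
    have := congrArg (fun m => m Set.univ) (map_withDensity_q (f := f) hτ hf n)
    simpa [Measure.map_apply (hτm n) MeasurableSet.univ, withDensity_apply] using this
  have hA : ∫⁻ ω, (∑' n, q W τ f n ω) ∂W = ∫⁻ x, ∑' n, min (r W τ f n x) (g W τ f n x) ∂W := by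
    rw [lintegral_tsum fun n => (hqm n).aemeasurable, lintegral_tsum fun n => (hmm n).aemeasurable]
    exact tsum_congr hmass
  have hB : ∫⁻ ω, (∑' n, q W τ f n ω) ∂W + ∫⁻ ω, ⨅ n, u W τ f n ω ∂W = 1 := by
    rw [← lintegral_add_right _ (Measurable.iInf hum)]
    simp_rw [tsum_q_add]
    simp
  have hC : ∫⁻ ω, (∑' n, q W τ f n ω) ∂W + ∫⁻ ω, ⨅ n, r W τ f n ω ∂W = 1 := by
    rw [hA, ← lintegral_add_right _ (Measurable.iInf hrm)]
    simp_rw [tsum_min_add]
    exact hf1
  have hD : ∫⁻ ω, ⨅ n, u W τ f n ω ∂W = ∫⁻ ω, ⨅ n, r W τ f n ω ∂W := by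
    have hfin : ∫⁻ ω, (∑' n, q W τ f n ω) ∂W ≠ ∞ := by
      intro h; rw [h] at hB; simp at hB
    exact (ENNReal.add_right_inj hfin).1 (hB.trans hC.symm)
  -- the unfilled part vanishes
  have hzero : ∫⁻ ω, ⨅ n, u W τ f n ω ∂W = 0 := by
    by_contra hne
    let A : Set E := {x | (⨅ n, r W τ f n x) ≠ 0}
    have hAm : MeasurableSet A := (Measurable.iInf hrm) (measurableSet_singleton 0).compl
    have hA0 : W A ≠ 0 := by
      intro h0
      apply hne
      rw [hD, lintegral_eq_zero_iff (Measurable.iInf hrm)]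
      exact h0
    apply hne
    rw [lintegral_eq_zero_iff (Measurable.iInf hum)]
    filter_upwards [hvisit A hAm hA0] with ω hω
    obtain ⟨n, hn⟩ := hω
    have h1 : r W τ f (n + 1) (τ n ω) ≠ 0 := by
      intro h0
      apply hn
      exact le_antisymm (h0 ▸ iInf_le (fun n => r W τ f n (τ _ ω)) (n + 1)) bot_le
    have h2 := u_succ_eq_zero n ω h1
    exact le_antisymm ((iInf_le (fun n => u W τ f n ω) (n + 1)).trans h2.le) bot_le
  refine ⟨q W τ f, hqm, ?_, ?_⟩
  · have := (lintegral_eq_zero_iff (Measurable.iInf hum)).1 hzero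
    filter_upwards [this] with ω hω
    have h3 := tsum_q_add (W := W) (τ := τ) (f := f) ω
    have h4 : (⨅ n, u W τ f n ω) = 0 := hω
    rwa [h4, add_zero] at h3
  · simp_rw [map_withDensity_q hτ hf]
    rw [hD] at hzero
    have h5 := (lintegral_eq_zero_iff (Measurable.iInf hrm)).1 hzero
    ext B hB
    rw [Measure.sum_apply _ hB]
    simp_rw [withDensity_apply _ hB]
    rw [← lintegral_tsum fun n => (hmm n).aemeasurable]
    apply lintegral_congr_ae
    filter_upwards [ae_restrict_of_ae h5] with x hx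
    have h3 := tsum_min_add (W := W) (τ := τ) (f := f) x
    have h4 : (⨅ n, r W τ f n x) = 0 := hx
    rwa [h4, add_zero] at h3

end FillingScheme


/-- The path space `C([0,∞), ℝ)` with the topology of locally uniform convergence (the compact-open
topology of Mathlib) is given its Borel σ-field. (Mathlib has no σ-field on this type.) -/
instance instMSPath : MeasurableSpace C(ℝ≥0, ℝ) := borel _
instance instBorelPath : BorelSpace C(ℝ≥0, ℝ) := ⟨rfl⟩

lemma continuous_eval (t : ℝ≥0) : Continuous (fun ω : C(ℝ≥0, ℝ) => ω t) := continuous_eval_const t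

lemma measurable_eval (t : ℝ≥0) : Measurable (fun ω : C(ℝ≥0, ℝ) => ω t) :=
  (continuous_eval t).measurable

/-- evaluation along a countable dense set of times -/
noncomputable def ev (ω : C(ℝ≥0, ℝ)) : ℕ → ℝ := fun n => ω (TopologicalSpace.denseSeq ℝ≥0 n)

lemma measurableEmbedding_ev : MeasurableEmbedding ev := by
  apply Continuous.measurableEmbedding
  · exact continuous_pi fun n => continuous_eval _
  · intro ω ω' h
    apply ContinuousMap.coe_injective
    apply Continuous.ext_on (TopologicalSpace.denseRange_denseSeq ℝ≥0) ω.continuous ω'.continuous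
    rintro _ ⟨n, rfl⟩
    exact congrFun h n

/-- The Borel σ-field of the path space is generated by the evaluations. -/
lemma ms_eq_comap_ev : instMSPath = MeasurableSpace.comap ev MeasurableSpace.pi :=
  measurableEmbedding_ev.comap_eq.symm

lemma ms_eq_comap_coe :
    instMSPath = MeasurableSpace.comap (fun (ω : C(ℝ≥0, ℝ)) (t : ℝ≥0) => ω t) MeasurableSpace.pi := by
  apply le_antisymm
  · rw [ms_eq_comap_ev]
    have : ev = (fun (x : ℝ≥0 → ℝ) (n : ℕ) => x (TopologicalSpace.denseSeq ℝ≥0 n)) ∘
      (fun (ω : C(ℝ≥0, ℝ)) (t : ℝ≥0) => ω t) := rfl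
    rw [this, ← MeasurableSpace.comap_comp]
    apply MeasurableSpace.comap_mono
    apply Measurable.comap_le
    fun_prop
  · apply Measurable.comap_le
    exact measurable_pi_lambda _ measurable_eval

lemma measurable_path {Ω : Type*} [MeasurableSpace Ω] {f : Ω → C(ℝ≥0, ℝ)}
    (h : ∀ t, Measurable fun a => f a t) : Measurable f := by
  rw [ms_eq_comap_coe, measurable_comap_iff]
  exact measurable_pi_lambda _ h

/-- The increments of the path after time `s`. -/
def shift (s : ℝ≥0) (ω : C(ℝ≥0, ℝ)) : C(ℝ≥0, ℝ) := ⟨fun t => ω (s + t) - ω s, by fun_prop⟩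

@[simp] lemma shift_apply (s t : ℝ≥0) (ω : C(ℝ≥0, ℝ)) : shift s ω t = ω (s + t) - ω s := rfl

lemma measurable_shift (s : ℝ≥0) : Measurable (shift s) :=
  measurable_path fun t => (measurable_eval (s + t)).fun_sub (measurable_eval s)

lemma shift_shift (s t : ℝ≥0) (ω : C(ℝ≥0, ℝ)) : shift t (shift s ω) = shift (s + t) ω := by
  ext x
  simp [add_assoc]

/-- `W` is Wiener measure: under `W` the coordinate process is a standard Brownian motion. -/
def IsWiener (W : Measure C(ℝ≥0, ℝ)) : Prop := IsBrownianReal (fun t (ω : C(ℝ≥0, ℝ)) => ω t) W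

lemma IsWiener.isProbabilityMeasure {W : Measure C(ℝ≥0, ℝ)} (h : IsWiener W) :
    IsProbabilityMeasure W := h.isGaussianProcess.isProbabilityMeasure

lemma wiener_unique {W₁ W₂ : Measure C(ℝ≥0, ℝ)}
    (h₁ : IsPreBrownianReal (fun t (ω : C(ℝ≥0, ℝ)) => ω t) W₁)
    (h₂ : IsPreBrownianReal (fun t (ω : C(ℝ≥0, ℝ)) => ω t) W₂) : W₁ = W₂ := by
  have : IsProbabilityMeasure W₁ := h₁.isGaussianProcess.isProbabilityMeasure
  have : IsProbabilityMeasure W₂ := h₂.isGaussianProcess.isProbabilityMeasure
  have hm : Measurable (fun (ω : C(ℝ≥0, ℝ)) (t : ℝ≥0) => ω t) :=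
    measurable_pi_lambda _ measurable_eval
  have key : W₁.map (fun (ω : C(ℝ≥0, ℝ)) (t : ℝ≥0) => ω t) =
      W₂.map (fun (ω : C(ℝ≥0, ℝ)) (t : ℝ≥0) => ω t) := by
    have p₁ := isProjectiveLimit_map (P := W₁) (X := fun t (ω : C(ℝ≥0, ℝ)) => ω t) hm.aemeasurable
    have p₂ := isProjectiveLimit_map (P := W₂) (X := fun t (ω : C(ℝ≥0, ℝ)) => ω t) hm.aemeasurable
    refine p₁.unique fun I => ?_
    rw [p₂ I]
    exact (h₂.hasLaw I).map_eq.trans (h₁.hasLaw I).map_eq.symm
  ext A hA
  rw [ms_eq_comap_coe] at hA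
  obtain ⟨A', hA', rfl⟩ := hA
  rw [← Measure.map_apply hm hA', key, Measure.map_apply hm hA']


lemma IsPreBrownianReal.map_path {Ω : Type*} [MeasurableSpace Ω] {P : Measure Ω}
    {f : Ω → C(ℝ≥0, ℝ)} (hf : AEMeasurable f P)
    (h : IsPreBrownianReal (fun t a => f a t) P) :
    IsPreBrownianReal (fun t (ω : C(ℝ≥0, ℝ)) => ω t) (P.map f) where
  hasLaw I := by
    have hm : Measurable (fun ω : C(ℝ≥0, ℝ) => I.restrict (fun t => ω t)) :=
      measurable_pi_lambda _ fun t => measurable_eval t
    refine ⟨hm.aemeasurable, ?_⟩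
    rw [AEMeasurable.map_map_of_aemeasurable hm.aemeasurable hf]
    exact (h.hasLaw I).map_eq

lemma measurePreserving_shift {W : Measure C(ℝ≥0, ℝ)}
    (h : IsPreBrownianReal (fun t (ω : C(ℝ≥0, ℝ)) => ω t) W) (s : ℝ≥0) :
    MeasurePreserving (shift s) W W := by
  refine ⟨measurable_shift s, ?_⟩
  apply wiener_unique _ h
  exact IsPreBrownianReal.map_path (measurable_shift s).aemeasurable (h.shift s)

/-- The σ-field generated by the path up to time `k`. -/
@[reducible] def past (k : ℕ) : MeasurableSpace C(ℝ≥0, ℝ) :=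
  MeasurableSpace.comap (fun (ω : C(ℝ≥0, ℝ)) (t : Set.Iic (k : ℝ≥0)) => ω t) MeasurableSpace.pi

lemma past_le (k : ℕ) : past k ≤ instMSPath := by
  apply Measurable.comap_le
  exact measurable_pi_lambda _ fun t => measurable_eval t

lemma past_mono : Monotone past := by
  intro j k hjk
  have hjk' : (j : ℝ≥0) ≤ k := by exact_mod_cast hjk
  unfold past
  have : (fun (ω : C(ℝ≥0, ℝ)) (t : Set.Iic (j : ℝ≥0)) => ω t) =
      (fun (x : Set.Iic (k : ℝ≥0) → ℝ) (t : Set.Iic (j : ℝ≥0)) => x ⟨t, t.2.trans hjk'⟩) ∘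
      (fun (ω : C(ℝ≥0, ℝ)) (t : Set.Iic (k : ℝ≥0)) => ω t) := rfl
  rw [this, ← MeasurableSpace.comap_comp]
  apply MeasurableSpace.comap_mono
  apply Measurable.comap_le
  fun_prop

lemma iSup_past : (⨆ k, past k) = instMSPath := by
  apply le_antisymm (iSup_le past_le)
  conv_lhs => rw [ms_eq_comap_coe]
  rw [← measurable_iff_comap_le]
  refine @measurable_pi_lambda _ _ _ (⨆ k, past k) _ _ fun t => ?_
  obtain ⟨k, hk⟩ := exists_nat_ge t
  have h1 : Measurable[past k] fun ω : C(ℝ≥0, ℝ) => ω t := by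
    have : (fun ω : C(ℝ≥0, ℝ) => ω t) = (fun x : Set.Iic (k : ℝ≥0) → ℝ => x ⟨t, hk⟩) ∘
      (fun (ω : C(ℝ≥0, ℝ)) (t : Set.Iic (k : ℝ≥0)) => ω t) := rfl
    rw [this]
    exact (measurable_pi_apply _).comp (comap_measurable _)
  exact h1.mono (le_iSup past k) le_rfl

lemma indep_past_shift {W : Measure C(ℝ≥0, ℝ)}
    (h : IsPreBrownianReal (fun t (ω : C(ℝ≥0, ℝ)) => ω t) W) (k : ℕ) :
    Indep (past k) (MeasurableSpace.comap (shift k) instMSPath) W := by
  have h1 := (h.indepFun_shift (k : ℝ≥0)).symm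
  rw [IndepFun_iff_Indep] at h1
  have h2 : MeasurableSpace.comap (shift k) instMSPath =
      MeasurableSpace.comap (fun (ω : C(ℝ≥0, ℝ)) (t : ℝ≥0) => ω (k + t) - ω k)
        MeasurableSpace.pi := by
    conv_lhs => rw [ms_eq_comap_coe, MeasurableSpace.comap_comp]
    rfl
  rw [h2]
  exact h1

/-- **Visit lemma.** The increments after time `n` visit every non-null set for some `n`. -/
lemma visit {W : Measure C(ℝ≥0, ℝ)}
    (h : IsPreBrownianReal (fun t (ω : C(ℝ≥0, ℝ)) => ω t) W) (A : Set C(ℝ≥0, ℝ))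
    (hA : MeasurableSet A) (hA0 : W A ≠ 0) : ∀ᵐ ω ∂W, ∃ n : ℕ, shift n ω ∈ A := by
  have : IsProbabilityMeasure W := h.isGaussianProcess.isProbabilityMeasure
  let E : Set C(ℝ≥0, ℝ) := {ω | ∀ n : ℕ, shift n ω ∉ A}
  have hE : MeasurableSet E := by
    have : E = ⋂ n : ℕ, (shift n ⁻¹' A)ᶜ := by ext ω; simp [E]
    rw [this]
    exact MeasurableSet.iInter fun n => (measurable_shift n hA).compl
  have hsub : ∀ k : ℕ, E ⊆ shift k ⁻¹' E := by
    intro k ω hω n
    rw [shift_shift]
    exact_mod_cast hω (k + n)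
  have hae : ∀ k : ℕ, E =ᵐ[W] (shift k ⁻¹' E : Set _) := by
    intro k
    apply ae_eq_of_subset_of_measure_ge (hsub k) _ hE.nullMeasurableSet (measure_ne_top _ _)
    exact ((measurePreserving_shift h k).measure_preimage hE.nullMeasurableSet).le
  have hindk : ∀ k : ℕ, Indep (past k) (MeasurableSpace.generateFrom {E}) W := by
    intro k
    have e1 : past k = MeasurableSpace.generateFrom {s | MeasurableSet[past k] s} :=
      (@MeasurableSpace.generateFrom_measurableSet _ (past k)).symm
    refine IndepSets.indep (past_le k) (MeasurableSpace.generateFrom_le (by simpa using hE))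
      (@MeasurableSpace.isPiSystem_measurableSet _ (past k)) (IsPiSystem.singleton E) e1 rfl ?_
    rw [IndepSets_iff]
    intro F G hF hG
    rw [Set.mem_singleton_iff] at hG
    subst hG
    have h1 := (indep_past_shift h k)
    rw [Indep_iff] at h1
    have h2 := h1 F (shift k ⁻¹' E) hF ⟨E, hE, rfl⟩
    rw [measure_congr ((ae_eq_refl F).inter (hae k)), h2, measure_congr (hae k)]
  have hind : Indep instMSPath (MeasurableSpace.generateFrom {E}) W := by
    have := indep_iSup_of_monotone hindk past_le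
      (MeasurableSpace.generateFrom_le (by simpa using hE)) past_mono
    rwa [iSup_past] at this
  have h01 : W E = 0 ∨ W E = 1 := by
    apply measure_eq_zero_or_one_of_indepSet_self
    refine (indepSet_iff_measure_inter_eq_mul hE hE W).2 ?_
    rw [Indep_iff] at hind
    exact hind E E hE (MeasurableSpace.measurableSet_generateFrom rfl)
  have hlt : W E < 1 := by
    have h1 : W E ≤ W (shift 0 ⁻¹' A)ᶜ := measure_mono fun ω hω => by
      have := hω 0
      simpa using this
    have h2 : W (shift 0 ⁻¹' A) = W A :=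
      (measurePreserving_shift h 0).measure_preimage hA.nullMeasurableSet
    rw [prob_compl_eq_one_sub (measurable_shift 0 hA), h2] at h1
    refine h1.trans_lt ?_
    exact ENNReal.sub_lt_self ENNReal.one_ne_top one_ne_zero hA0
  have h0 : W E = 0 := h01.resolve_right hlt.ne
  rw [ae_iff]
  convert h0 using 2
  ext ω
  simp [E]



/-- The function obtained by putting the piece `(T, y)` in front of `x`: it is `y t` for `t ≤ T`
and `y T + x (t - T)` for `t > T`. -/
noncomputable def prepend (T : ℝ≥0) (y x : C(ℝ≥0, ℝ)) (t : ℝ≥0) : ℝ :=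
  if t ≤ T then y t else y T + x (t - T)

lemma prepend_shift (n : ℕ) (z : C(ℝ≥0, ℝ)) (t : ℝ≥0) : prepend n z (shift n z) t = z t := by
  unfold prepend
  split_ifs with h
  · rfl
  · rw [shift_apply, add_tsub_cancel_of_le (not_le.1 h).le]
    ring

/-- the path `z` started from `0` -/
noncomputable def centre (z : C(ℝ≥0, ℝ)) : C(ℝ≥0, ℝ) := ⟨fun t => z t - z 0, by fun_prop⟩

lemma measurable_centre : Measurable centre :=
  measurable_path fun t => (measurable_eval t).fun_sub (measurable_eval 0)

lemma centre_eq {z : C(ℝ≥0, ℝ)} (h : z 0 = 0) : centre z = z := by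
  ext t
  simp [centre, h]

lemma map_compProd_comap {Ω E F : Type*} [MeasurableSpace Ω] [MeasurableSpace E]
    [MeasurableSpace F] (P : Measure Ω) [IsProbabilityMeasure P] (κ : Kernel E F)
    [IsMarkovKernel κ] {X : Ω → E} (hX : Measurable X) :
    (P ⊗ₘ (κ.comap X hX)).map (Prod.map X id) = (P.map X) ⊗ₘ κ := by
  have hm : Measurable (Prod.map X (id : F → F)) := hX.prodMap measurable_id
  ext s hs
  rw [Measure.map_apply hm hs, Measure.compProd_apply (hm hs), Measure.compProd_apply hs,
    lintegral_map (Kernel.measurable_kernel_prodMk_left hs) hX]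
  rfl

universe v

/-- **Main theorem.** Let `W` be Wiener measure on the path space and let `X : Ω → C([0,∞), ℝ)` be a
continuous process on a probability space `(Ω, P)` whose law `P.map X` is absolutely continuous with
respect to `W`. Then there are a probability space `(Ω', P')` with a measure preserving map
`π : Ω' → Ω` (an enlargement of `Ω`, carrying `X ∘ π`), a random time `T : Ω' → [0,∞)` and a
continuous process `Y` with `Y 0 = 0`, such that the process equal to `Y t` for `t ≤ T` and to
`Y T + X (t - T)` for `t > T` is a standard Brownian motion (Mathlib's `IsBrownianReal`). -/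
theorem result {Ω : Type v} [MeasurableSpace Ω] (P : Measure Ω) [IsProbabilityMeasure P]
    (W : Measure C(ℝ≥0, ℝ)) (hW : IsWiener W)
    (X : Ω → C(ℝ≥0, ℝ)) (hX : Measurable X) (hXW : P.map X ≪ W) :
    ∃ (Ω' : Type v) (_ : MeasurableSpace Ω') (P' : Measure Ω') (π : Ω' → Ω)
      (T : Ω' → ℝ≥0) (Y : Ω' → C(ℝ≥0, ℝ)),
      IsProbabilityMeasure P' ∧ MeasurePreserving π P' P ∧ Measurable T ∧ Measurable Y ∧
      (∀ a, Y a 0 = 0) ∧
      IsBrownianReal (fun t a => prepend (T a) (Y a) (X (π a)) t) P' := by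
  have hWp : IsProbabilityMeasure W := hW.isProbabilityMeasure
  have hνp : IsProbabilityMeasure (P.map X) := Measure.isProbabilityMeasure_map hX.aemeasurable
  have hWpre : IsPreBrownianReal (fun t (ω : C(ℝ≥0, ℝ)) => ω t) W := hW.toIsPreBrownianReal
  have hfν : W.withDensity ((P.map X).rnDeriv W) = P.map X :=
    Measure.withDensity_rnDeriv_eq _ _ hXW
  obtain ⟨q, hqm, hq1, hqs⟩ := FillingScheme.exists_filling (W := W)
    (τ := fun n : ℕ => shift (n : ℝ≥0)) (f := (P.map X).rnDeriv W)
    (fun n => measurePreserving_shift hWpre n) (Measure.measurable_rnDeriv _ _)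
    (by
      have := congrArg (fun m => m Set.univ) hfν
      simpa [withDensity_apply] using this)
    (fun A hA hA0 => visit hWpre A hA hA0)
  rw [hfν] at hqs
  -- the joint law of the path and of the time
  let Q : Measure (C(ℝ≥0, ℝ) × ℕ) :=
    Measure.sum fun n => (W.withDensity (q n)).map (fun ω => (ω, n))
  have hQ1 : Q.map Prod.fst = W := by
    rw [Measure.map_sum (by fun_prop)]
    have : ∀ n, ((W.withDensity (q n)).map (fun ω => (ω, n))).map Prod.fst =
        W.withDensity (q n) := by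
      intro n
      rw [Measure.map_map (by fun_prop) (by fun_prop)]
      exact Measure.map_id
    simp_rw [this]
    rw [← withDensity_tsum hqm]
    conv_rhs => rw [← withDensity_one (μ := W)]
    apply withDensity_congr_ae
    filter_upwards [hq1] with ω hω
    rw [ENNReal.tsum_apply, hω]
    rfl
  let S : C(ℝ≥0, ℝ) × ℕ → C(ℝ≥0, ℝ) := fun p => shift (p.2 : ℝ≥0) p.1
  have hS : Measurable S := measurable_from_prod_countable_left fun n => measurable_shift n
  have hQ2 : Q.map S = P.map X := by
    rw [Measure.map_sum hS.aemeasurable, ← hqs]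
    congr 1
    ext1 n
    rw [Measure.map_map hS (by fun_prop)]
    rfl
  have hQp : IsProbabilityMeasure Q := by
    constructor
    have : (Q.map Prod.fst) Set.univ = 1 := by rw [hQ1]; exact measure_univ
    rwa [Measure.map_apply (by fun_prop) MeasurableSet.univ, Set.preimage_univ] at this
  let κ : Kernel C(ℝ≥0, ℝ) (C(ℝ≥0, ℝ) × ℕ) := condDistrib id S Q
  have hJ : (P ⊗ₘ (κ.comap X hX)).map (Prod.map X id) = Q.map (fun p => (S p, id p)) := by
    rw [map_compProd_comap, ← hQ2, compProd_map_condDistrib aemeasurable_id]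
  have hmJ : Measurable (Prod.map X (id : C(ℝ≥0, ℝ) × ℕ → C(ℝ≥0, ℝ) × ℕ)) :=
    hX.prodMap measurable_id
  set P' : Measure (Ω × (C(ℝ≥0, ℝ) × ℕ)) := P ⊗ₘ (κ.comap X hX) with hP'
  have hsnd : P'.map Prod.snd = Q := by
    have h1 : (P'.map (Prod.map X (id : C(ℝ≥0, ℝ) × ℕ → C(ℝ≥0, ℝ) × ℕ))).map Prod.snd =
        (Q.map (fun p => (S p, id p))).map Prod.snd := congrArg (fun m => m.map Prod.snd) hJ
    rw [Measure.map_map (by fun_prop) hmJ, Measure.map_map (by fun_prop) (by fun_prop)] at h1
    have h2 : (Prod.snd ∘ fun p : C(ℝ≥0, ℝ) × ℕ => (S p, id p)) = id := rfl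
    rw [h2, Measure.map_id] at h1
    exact h1
  have hz : P'.map (fun a => a.2.1) = W := by
    rw [← hQ1, ← hsnd, Measure.map_map (by fun_prop) (by fun_prop)]
    rfl
  have hXS : ∀ᵐ a ∂P', X a.1 = S a.2 := by
    have hD : MeasurableSet {b : C(ℝ≥0, ℝ) × (C(ℝ≥0, ℝ) × ℕ) | b.1 = S b.2} :=
      measurableSet_eq_fun measurable_fst (hS.comp measurable_snd)
    have h1 : ∀ᵐ b ∂(P'.map (Prod.map X id)), b.1 = S b.2 := by
      rw [hJ, ae_map_iff (by fun_prop) hD]
      exact ae_of_all _ fun p => rfl
    rw [ae_map_iff hmJ.aemeasurable hD] at h1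
    exact h1
  have h0 : ∀ᵐ a ∂P', a.2.1 (0 : ℝ≥0) = 0 := by
    have h1 : ∀ᵐ z ∂W, (z : C(ℝ≥0, ℝ)) 0 = 0 := hWpre.eval_zero_ae_eq_zero
    have hD : MeasurableSet {z : C(ℝ≥0, ℝ) | z 0 = 0} :=
      measurable_eval 0 (measurableSet_singleton 0)
    rw [← hz, ae_map_iff (by fun_prop) hD] at h1
    exact h1
  have hall : ∀ᵐ a ∂P', ∀ t, prepend (a.2.2 : ℝ≥0) (centre a.2.1) (X a.1) t = a.2.1 t := by
    filter_upwards [hXS, h0] with a ha1 ha0 t
    rw [centre_eq ha0, ha1]
    exact prepend_shift _ _ _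
  have hpre : IsPreBrownianReal (fun t (a : Ω × (C(ℝ≥0, ℝ) × ℕ)) => a.2.1 t) P' := by
    constructor
    intro I
    have h1 := hWpre.hasLaw I
    have hm : Measurable (fun ω : C(ℝ≥0, ℝ) => I.restrict (fun t => ω t)) :=
      measurable_pi_lambda _ fun t => measurable_eval t
    refine ⟨(hm.comp (measurable_fst.comp measurable_snd)).aemeasurable, ?_⟩
    have h2 : (fun a : Ω × (C(ℝ≥0, ℝ) × ℕ) => I.restrict (fun t => a.2.1 t)) =
      (fun ω : C(ℝ≥0, ℝ) => I.restrict (fun t => ω t)) ∘ (fun a => a.2.1) := rfl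
    rw [h2, ← Measure.map_map hm (by fun_prop), hz]
    exact h1.map_eq
  refine ⟨Ω × (C(ℝ≥0, ℝ) × ℕ), inferInstance, P', Prod.fst, fun a => (a.2.2 : ℝ≥0),
    fun a => centre a.2.1, inferInstance, ⟨measurable_fst, ?_⟩, ?_, ?_, ?_, ?_⟩
  · exact Measure.fst_compProd _ _
  · exact (measurable_from_top (f := fun n : ℕ => (n : ℝ≥0))).comp (measurable_snd.comp measurable_snd)
  · exact measurable_centre.comp (measurable_fst.comp measurable_snd)
  · intro a
    simp [centre]
  · refine ⟨hpre.congr fun t => ?_, ?_⟩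
    · filter_upwards [hall] with a ha
      exact (ha t).symm
    · filter_upwards [hall] with a ha
      have : (fun t => prepend (a.2.2 : ℝ≥0) (centre a.2.1) (X a.1) t) = fun t => a.2.1 t :=
        funext ha
      rw [this]
      exact a.2.1.continuous

end Pool.Agent.Results.MP_a9102c_pr.Prepend
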